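import Mathlib

namespace Pool.Agent.H.MP_49e1f6_an

open Finset Filter

def MM : ℕ → ℕ
  | 0 => 0
  | j + 1 => MM j + 20 * (j + 11)

theorem MM_succ (j : ℕ) : MM (j + 1) = MM j + 20 * (j + 11) := rfl

theorem split (M : ℕ → ℕ) (hM : ∀ i, M i < M (i + 1)) (U : ℕ → ℤ)
    (hU : ∀ i, |U i| ≤ 3 ^ (M (i + 1) - M i)) (J : ℕ) :
    |(3 : ℝ) ^ M J * ∑' i, (U i : ℝ) / 3 ^ M (i + 1)
      - ((∑ i ∈ range J, U i * 3 ^ (M J - M (i + 1)) : ℤ) : ℝ)| ≤ 2 := by
  have hmono : StrictMono M := strictMono_nat_of_lt_succ hM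
  have hb : ∀ i, |(U i : ℝ) / 3 ^ M (i + 1)| ≤ 1 / 3 ^ M i := by
    intro i
    have h1 : |(U i : ℝ)| ≤ 3 ^ (M (i + 1) - M i) := by exact_mod_cast hU i
    have h2 : (3 : ℝ) ^ M (i + 1) = 3 ^ (M (i + 1) - M i) * 3 ^ M i := by
      rw [← pow_add, Nat.sub_add_cancel (hM i).le]
    rw [abs_div, abs_of_pos (by positivity : (0 : ℝ) < 3 ^ M (i + 1)), h2,
      div_le_div_iff₀ (by positivity) (by positivity)]
    have : (0 : ℝ) < 3 ^ M i := by positivity
    nlinarith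
  have hb2 : ∀ K i, (1 : ℝ) / 3 ^ M (i + K) ≤ (1 / 3 ^ M K) * (1 / 3) ^ i := by
    intro K i
    have h1 : M K + i ≤ M (i + K) := by
      induction i with
      | zero => simp
      | succ i ih =>
        have := hM (i + K)
        have e : i + 1 + K = i + K + 1 := by ring
        rw [e]; omega
    rw [one_div_pow, one_div_mul_one_div, ← pow_add]
    exact one_div_le_one_div_of_le (by positivity) (pow_le_pow_right₀ (by norm_num) h1)
  have hg : Summable fun i : ℕ => ((1 : ℝ) / 3) ^ i :=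
    summable_geometric_of_lt_one (by norm_num) (by norm_num)
  have hs : Summable fun i => (U i : ℝ) / 3 ^ M (i + 1) := by
    refine Summable.of_norm_bounded (hg.mul_left (1 / 3 ^ M 0)) fun i => ?_
    exact (hb i).trans (hb2 0 i)
  rw [← hs.sum_add_tsum_nat_add J, mul_add]
  have e1 : (3 : ℝ) ^ M J * ∑ i ∈ range J, (U i : ℝ) / 3 ^ M (i + 1)
      = ((∑ i ∈ range J, U i * 3 ^ (M J - M (i + 1)) : ℤ) : ℝ) := by
    push_cast
    rw [mul_sum]
    refine sum_congr rfl fun i hi => ?_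
    have hi' : M (i + 1) ≤ M J := hmono.monotone (mem_range.mp hi)
    have h2 : (3 : ℝ) ^ M J = 3 ^ (M J - M (i + 1)) * 3 ^ M (i + 1) := by
      rw [← pow_add, Nat.sub_add_cancel hi']
    rw [h2]; field_simp
  rw [e1, add_sub_cancel_left, abs_mul, abs_of_pos (by positivity : (0 : ℝ) < 3 ^ M J)]
  have h3 : ‖∑' i, (U (i + J) : ℝ) / 3 ^ M (i + J + 1)‖ ≤ (1 / 3 ^ M J) * (1 - 1 / 3)⁻¹ := by
    refine tsum_of_norm_bounded
      ((hasSum_geometric_of_lt_one (r := (1 / 3 : ℝ)) (by norm_num) (by norm_num)).mul_left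
        (1 / 3 ^ M J)) fun i => ?_
    exact (hb (i + J)).trans (hb2 J i)
  rw [Real.norm_eq_abs] at h3
  have hp : (0 : ℝ) < 3 ^ M J := by positivity
  calc _ ≤ (3 : ℝ) ^ M J * ((1 / 3 ^ M J) * (1 - 1 / 3)⁻¹) := by gcongr
    _ = 3 / 2 := by field_simp; norm_num
    _ ≤ 2 := by norm_num

def GG (l : ℕ) : Finset ℤ :=
  ((Fintype.piFinset fun _ : Fin (20 * l) => ({-1, 0, 1} : Finset ℤ)).filter
    fun d => 9 * l ≤ (univ.filter fun i => d i = 0).card).image
    fun d => ∑ i : Fin (20 * l), 2 * d i * 3 ^ (20 * l - 1 - i)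

theorem card_GG (l : ℕ) : (GG l).card ≤ 2 ^ (31 * l) := by
  have h1 := Finset.sum_pow' ({-1, 0, 1} : Finset ℤ) (fun d => if d = 0 then (2 : ℕ) else 1) (20 * l)
  have h2 : (∑ a ∈ ({-1, 0, 1} : Finset ℤ), if a = 0 then (2 : ℕ) else 1) = 4 := by decide
  rw [h2] at h1
  set S := (Fintype.piFinset fun _ : Fin (20 * l) => ({-1, 0, 1} : Finset ℤ)).filter
    fun d => 9 * l ≤ (univ.filter fun i => d i = 0).card with hS
  have h3 : S.card * 2 ^ (9 * l) ≤ 4 ^ (20 * l) := by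
    rw [h1]
    calc S.card * 2 ^ (9 * l) = ∑ _d ∈ S, 2 ^ (9 * l) := by simp
      _ ≤ ∑ d ∈ S, ∏ i, (if d i = 0 then (2 : ℕ) else 1) := by
        refine sum_le_sum fun d hd => ?_
        rw [prod_ite, prod_const_one, mul_one, prod_const]
        exact Nat.pow_le_pow_right (by norm_num) (mem_filter.mp hd).2
      _ ≤ _ := sum_le_sum_of_subset (filter_subset _ _)
  have h4 : (4 : ℕ) ^ (20 * l) = 2 ^ (31 * l) * 2 ^ (9 * l) := by
    rw [← pow_add, show (4 : ℕ) = 2 ^ 2 by norm_num, ← pow_mul]; congr 1; ring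
  rw [h4] at h3
  exact card_image_le.trans (Nat.le_of_mul_le_mul_right h3 (by positivity))

theorem num_ineq (l : ℕ) (hl : 11 ≤ l) :
    3 ^ (20 * l) * (2 ^ (31 * l) * 11) ^ 100 < (3 ^ (20 * l)) ^ 100 := by
  have h1 : (2 ^ (31 * l) * 11) ^ 100 < (3 ^ (20 * l)) ^ 99 := by
    have a1 : (2 : ℕ) ^ 3138 ≤ 3 ^ 1980 := by decide +kernel
    have a2 : (11 : ℕ) ^ 100 < 2 ^ (38 * 11) := by decide +kernel
    have a3 : (2 : ℕ) ^ (38 * 11) ≤ 2 ^ (38 * l) :=
      Nat.pow_le_pow_right (by norm_num) (Nat.mul_le_mul_left 38 hl)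
    calc (2 ^ (31 * l) * 11) ^ 100 = 2 ^ (3100 * l) * 11 ^ 100 := by
          rw [mul_pow, ← pow_mul]; congr 2; ring
      _ < 2 ^ (3100 * l) * 2 ^ (38 * l) :=
          Nat.mul_lt_mul_of_pos_left (lt_of_lt_of_le a2 a3) (by positivity)
      _ = (2 ^ 3138) ^ l := by rw [← pow_add, ← pow_mul]; congr 1; ring
      _ ≤ (3 ^ 1980) ^ l := Nat.pow_le_pow_left a1 l
      _ = _ := by rw [← pow_mul, ← pow_mul]; congr 1; ring
  calc _ < 3 ^ (20 * l) * (3 ^ (20 * l)) ^ 99 := Nat.mul_lt_mul_of_pos_left h1 (by positivity)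
    _ = _ := by rw [← pow_succ']

theorem good_vec (l : ℕ) (hl : 11 ≤ l) :
    ∃ v : Fin 100 → ℤ, (∀ i, |v i| ≤ 3 ^ (20 * l)) ∧
      ∀ T : ℤ, ¬ ∀ i, ∃ g ∈ GG l, ∃ n e : ℤ, |e| ≤ 5 ∧ v i = T + g + e + n * 3 ^ (20 * l) := by
  classical
  set N := 3 ^ (20 * l) with hN
  have : NeZero N := ⟨by positivity⟩
  set W : Finset (ZMod N) := (GG l ×ˢ Icc (-5 : ℤ) 5).image fun p => ((p.1 + p.2 : ℤ) : ZMod N)
  set Bad : Finset (Fin 100 → ZMod N) :=
    univ.biUnion fun t : ZMod N => Fintype.piFinset fun _ => W.image (t + ·)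
  have hW : W.card ≤ 2 ^ (31 * l) * 11 := by
    refine card_image_le.trans ?_
    rw [card_product]
    exact Nat.mul_le_mul (card_GG l) (by simp)
  have hB : Bad.card ≤ N * (2 ^ (31 * l) * 11) ^ 100 := by
    refine card_biUnion_le.trans ?_
    calc _ ≤ ∑ _t : ZMod N, (2 ^ (31 * l) * 11) ^ 100 := by
          refine sum_le_sum fun t _ => ?_
          rw [Fintype.card_piFinset_const]
          exact Nat.pow_le_pow_left (card_image_le.trans hW) _
      _ = _ := by rw [sum_const, card_univ, ZMod.card, smul_eq_mul]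
  have hlt : Bad.card < (univ : Finset (Fin 100 → ZMod N)).card := by
    rw [card_univ, Fintype.card_fun, ZMod.card, Fintype.card_fin]
    exact lt_of_le_of_lt hB (num_ineq l hl)
  obtain ⟨v, -, hv⟩ := exists_mem_notMem_of_card_lt_card hlt
  refine ⟨fun i => ((v i).val : ℤ), fun i => ?_, fun T hT => hv ?_⟩
  · rw [abs_of_nonneg (by positivity)]
    have := (ZMod.val_lt (v i)).le
    have h2 : ((v i).val : ℤ) ≤ (N : ℤ) := by exact_mod_cast this
    simpa [hN] using h2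
  · refine mem_biUnion.mpr ⟨(T : ZMod N), mem_univ _, Fintype.mem_piFinset.mpr fun i => ?_⟩
    obtain ⟨g, hg, n, e, he, h⟩ := hT i
    refine mem_image.mpr ⟨((g + e : ℤ) : ZMod N), mem_image.mpr ⟨(g, e), ?_, rfl⟩, ?_⟩
    · exact mem_product.mpr ⟨hg, mem_Icc.mpr (abs_le.mp he)⟩
    · have h1 : (((v i).val : ℤ) : ZMod N) = v i := by simp
      have h2 : ((3 ^ (20 * l) : ℤ) : ZMod N) = 0 := by
        have : ((N : ℕ) : ZMod N) = 0 := ZMod.natCast_self N
        rw [hN] at this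
        exact_mod_cast this
      have h' : ((v i).val : ℤ) = T + g + e + n * 3 ^ (20 * l) := h
      rw [← h1, h', Int.cast_add _ (n * _), Int.cast_mul, h2]
      push_cast; ring

def Good (j : ℕ) (u : ℝ) : Prop :=
  ∃ g ∈ GG (j + 11), ∃ n : ℤ, |(3 : ℝ) ^ MM (j + 1) * u - g - n * 3 ^ (20 * (j + 11))| ≤ 2

def BB : Set ℝ := {u | ∀ᶠ j in atTop, Good j u}

theorem good_of_digits (d : ℕ → ℤ) (hd : ∀ n, d n ∈ ({-1, 0, 1} : Finset ℤ)) (j : ℕ)
    (hz : 9 * (j + 11) ≤ (univ.filter fun i : Fin (20 * (j + 11)) => d (MM j + i) = 0).card) :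
    Good j (∑' n, ((2 * d n : ℤ) : ℝ) / 3 ^ (n + 1)) := by
  have h := split id (fun i => Nat.lt_succ_self i) (fun n => 2 * d n) (fun i => by
    have := hd i
    simp only [mem_insert, mem_singleton] at this
    rcases this with h | h | h <;> simp [h]) (MM (j + 1))
  simp only [id] at h
  refine ⟨∑ i : Fin (20 * (j + 11)), 2 * d (MM j + i) * 3 ^ (20 * (j + 11) - 1 - i), ?_,
    ∑ i ∈ range (MM j), 2 * d i * 3 ^ (MM j - (i + 1)), ?_⟩
  · refine mem_image.mpr ⟨fun i => d (MM j + i), mem_filter.mpr ⟨?_, hz⟩, rfl⟩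
    exact Fintype.mem_piFinset.mpr fun i => hd _
  · have e : (∑ i ∈ range (MM (j + 1)), 2 * d i * 3 ^ (MM (j + 1) - (i + 1)) : ℤ)
        = ∑ i : Fin (20 * (j + 11)), 2 * d (MM j + i) * 3 ^ (20 * (j + 11) - 1 - i)
          + (∑ i ∈ range (MM j), 2 * d i * 3 ^ (MM j - (i + 1))) * 3 ^ (20 * (j + 11)) := by
      rw [MM_succ, sum_range_add, add_comm, sum_mul]
      congr 1
      · rw [← Fin.sum_univ_eq_sum_range
          (fun i => 2 * d (MM j + i) * 3 ^ (MM j + 20 * (j + 11) - (MM j + i + 1)))]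
        refine sum_congr rfl fun i _ => ?_
        have e1 : MM j + 20 * (j + 11) - (MM j + i + 1) = 20 * (j + 11) - 1 - i := by omega
        rw [e1]
      · refine sum_congr rfl fun i hi => ?_
        have := mem_range.mp hi
        have e1 : MM j + 20 * (j + 11) - (i + 1) = MM j - (i + 1) + 20 * (j + 11) := by omega
        rw [e1, pow_add, mul_assoc (2 * d i)]
    rw [e] at h
    convert h using 2
    push_cast; ring

end Pool.Agent.H.MP_49e1f6_an
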