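import Pool.Agent.H.MP_49e1f6_an.A

namespace Pool.Agent.H.MP_49e1f6_an

open Finset Filter MeasureTheory ProbabilityTheory
open scoped ENNReal

noncomputable def nu : Measure Bool :=
  (2⁻¹ : ℝ≥0∞) • Measure.dirac false + (2⁻¹ : ℝ≥0∞) • Measure.dirac true

instance : IsProbabilityMeasure nu := ⟨by
  simp [nu, ENNReal.inv_two_add_inv_two]⟩

noncomputable def PP : Measure (ℕ → Bool) := Measure.infinitePi fun _ => nu

instance : IsProbabilityMeasure PP := by unfold PP; infer_instance

noncomputable def phi (x : ℕ → Bool) : ℝ := ∑' n, (if x n then (2 : ℝ) else 0) / 3 ^ (n + 1)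

theorem nu_single (c : Bool) : nu {c} = 2⁻¹ := by
  cases c <;> simp [nu]

theorem PP_single (a : ℕ → Bool) : PP {a} = 0 := by
  have h : ∀ n, PP {a} ≤ (2⁻¹ : ℝ≥0∞) ^ n := by
    intro n
    have h1 : ({a} : Set (ℕ → Bool)) ⊆ Set.pi (range n : Finset ℕ) fun i => {a i} := by
      rintro _ rfl i _; rfl
    refine (measure_mono h1).trans ?_
    rw [PP, Measure.infinitePi_pi _ (fun i _ => measurableSet_singleton _)]
    simp [nu_single]
  have ht := ENNReal.tendsto_pow_atTop_nhds_zero_of_lt_one
    (show (2⁻¹ : ℝ≥0∞) < 1 by norm_num)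
  exact le_antisymm (ge_of_tendsto' ht h) zero_le

theorem summable_phi (x : ℕ → Bool) :
    Summable fun n => (if x n then (2 : ℝ) else 0) / 3 ^ (n + 1) := by
  have hg : Summable fun i : ℕ => ((1 : ℝ) / 3) ^ i :=
    summable_geometric_of_lt_one (by norm_num) (by norm_num)
  refine Summable.of_nonneg_of_le (fun n => by split_ifs <;> positivity) (fun n => ?_) hg
  rw [one_div_pow, pow_succ, div_le_div_iff₀ (by positivity) (by positivity)]
  have : (0 : ℝ) < 3 ^ n := by positivity
  split_ifs <;> nlinarith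

theorem phi_inj : Function.Injective phi := by
  have h : ∀ x, phi x = 2 / 3 * Cardinal.cantorFunction (1 / 3) x := by
    intro x
    rw [phi, Cardinal.cantorFunction, ← tsum_mul_left]
    refine tsum_congr fun n => ?_
    cases hx : x n
    · simp [Cardinal.cantorFunctionAux, hx]
    · simp only [Cardinal.cantorFunctionAux, hx, cond_true, if_true]
      rw [one_div_pow, pow_succ]; field_simp
  intro x y hxy
  rw [h, h] at hxy
  exact Cardinal.cantorFunction_injective (by norm_num) (by norm_num)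
    (mul_left_cancel₀ (by norm_num) hxy)

theorem phi_meas : Measurable phi := by
  refine Measurable.tsum fun n => ?_
  exact (measurable_of_countable fun c : Bool => (if c then (2 : ℝ) else 0) / 3 ^ (n + 1)).comp
    (measurable_pi_apply n)

theorem block_bound (a : ℕ → Bool) (m l : ℕ) :
    PP {b | (univ.filter fun i : Fin (20 * l) => b (m + i) = a (m + i)).card < 9 * l}
      ≤ (ENNReal.ofReal (19 / 20)) ^ l := by
  set f : ℕ → Bool → ℝ≥0∞ := fun n c => if c = a n then 9 else 11 with hf
  have hind : iIndepFun (fun i (ω : ℕ → Bool) => f i (ω i)) PP :=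
    iIndepFun_infinitePi (P := fun _ => nu) (X := f) fun i => measurable_of_countable _
  have hmeas : ∀ i, Measurable fun ω : ℕ → Bool => f i (ω i) := fun i =>
    (measurable_of_countable (f i)).comp (measurable_pi_apply i)
  have h1 := lintegral_prod_eq_prod_lintegral_of_indepFun (Ico m (m + 20 * l)) _ hind hmeas
  have h2 : ∀ i, ∫⁻ ω, f i (ω i) ∂PP = 10 := by
    intro i
    have : ∫⁻ ω, f i (ω i) ∂PP = ∫⁻ c, f i c ∂nu := by
      rw [← Measure.infinitePi_map_eval (fun _ : ℕ => nu) i,
        lintegral_map (measurable_of_countable _) (measurable_pi_apply i)]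
      rfl
    rw [this, nu, lintegral_add_measure, lintegral_smul_measure, lintegral_smul_measure,
      lintegral_dirac, lintegral_dirac, smul_eq_mul, smul_eq_mul, ← mul_add]
    have e : f i false + f i true = 2 * 10 := by
      cases h : a i <;> simp [hf, h] <;> norm_num
    rw [e, ← mul_assoc, ENNReal.inv_mul_cancel (by norm_num) (by norm_num), one_mul]
  simp only [h2, prod_const, Nat.card_Ico, Nat.add_sub_cancel_left] at h1
  have h3 := mul_meas_ge_le_lintegral (μ := PP)
    (Finset.measurable_fun_prod (Ico m (m + 20 * l)) fun i _ => hmeas i) ((9 ^ 9 * 11 ^ 11) ^ l)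
  rw [h1] at h3
  have h4 : {b : ℕ → Bool |
      (univ.filter fun i : Fin (20 * l) => b (m + i) = a (m + i)).card < 9 * l} ⊆
      {b | ((9 ^ 9 * 11 ^ 11) ^ l : ℝ≥0∞) ≤ ∏ i ∈ Ico m (m + 20 * l), f i (b i)} := by
    intro b hb
    simp only [Set.mem_ofPred_eq] at hb ⊢
    rw [prod_Ico_eq_prod_range, Nat.add_sub_cancel_left,
      ← Fin.prod_univ_eq_prod_range (fun i => f (m + i) (b (m + i)))]
    simp only [hf]
    rw [prod_ite, prod_const, prod_const]
    have hc := card_filter_add_card_filter_not (s := (univ : Finset (Fin (20 * l))))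
      (fun i : Fin (20 * l) => b (m + i) = a (m + i))
    rw [card_univ, Fintype.card_fin] at hc
    set z := (univ.filter fun i : Fin (20 * l) => b (m + i) = a (m + i)).card
    set w := (univ.filter fun i : Fin (20 * l) => ¬ b (m + i) = a (m + i)).card
    obtain ⟨k, hk⟩ : ∃ k, 9 * l = z + k := ⟨9 * l - z, by omega⟩
    have hw : w = k + 11 * l := by omega
    rw [mul_pow, ← pow_mul, ← pow_mul, hk, hw, pow_add, pow_add, mul_assoc]
    gcongr
    norm_num
  have hp : ((9 ^ 9 * 11 ^ 11) ^ l : ℝ≥0∞) ≠ 0 := by positivity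
  have hq : ((9 ^ 9 * 11 ^ 11) ^ l : ℝ≥0∞) ≠ ⊤ := by finiteness
  refine (measure_mono h4).trans ((ENNReal.mul_le_mul_iff_right hp hq).mp (h3.trans ?_))
  rw [← mul_pow, pow_mul]
  gcongr
  have e1 : (10 : ℝ≥0∞) ^ 20 = ENNReal.ofReal (10 ^ 20) := by
    rw [ENNReal.ofReal_pow (by norm_num)]; norm_num
  have e2 : (9 ^ 9 * 11 ^ 11 : ℝ≥0∞) = ENNReal.ofReal (9 ^ 9 * 11 ^ 11) := by
    rw [ENNReal.ofReal_mul (by norm_num), ENNReal.ofReal_pow (by norm_num),
      ENNReal.ofReal_pow (by norm_num)]; norm_num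
  rw [e1, e2, ← ENNReal.ofReal_mul (by norm_num)]
  exact ENNReal.ofReal_le_ofReal (by norm_num)

theorem sub_mem_BB (a b : ℕ → Bool) (h : ∀ᶠ j in atTop, 9 * (j + 11) ≤
    (univ.filter fun i : Fin (20 * (j + 11)) => b (MM j + i) = a (MM j + i)).card) :
    phi b - phi a ∈ BB := by
  set d : ℕ → ℤ := fun n => (if b n then 1 else 0) - (if a n then 1 else 0) with hd
  have e : phi b - phi a = ∑' n, ((2 * d n : ℤ) : ℝ) / 3 ^ (n + 1) := by
    rw [phi, phi, ← (summable_phi b).tsum_sub (summable_phi a)]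
    refine tsum_congr fun n => ?_
    rw [← sub_div]; congr 1
    cases hb : b n <;> cases ha : a n <;> simp [hd, ha, hb]
  rw [e]
  refine h.mono fun j hj => good_of_digits d (fun n => ?_) j (hj.trans (card_le_card ?_))
  · cases hb : b n <;> cases ha : a n <;> simp [hd, ha, hb]
  · intro i hi
    simp only [mem_filter, mem_univ, true_and] at hi ⊢
    simp [hd, hi]

theorem ae_BB (a : ℕ → Bool) : ∀ᵐ b ∂PP, phi b - phi a ∈ BB ∧ phi a - phi b ∈ BB := by
  have h := ae_eventually_notMem (μ := PP) (s := fun j => {b : ℕ → Bool |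
    (univ.filter fun i : Fin (20 * (j + 11)) => b (MM j + i) = a (MM j + i)).card < 9 * (j + 11)})
    (by
      have hr : ENNReal.ofReal (19 / 20) < 1 := by
        rw [ENNReal.ofReal_lt_one]; norm_num
      refine ne_top_of_le_ne_top (b := ∑' j : ℕ, (ENNReal.ofReal (19 / 20)) ^ j) ?_
        (ENNReal.tsum_le_tsum fun j => (block_bound a (MM j) (j + 11)).trans ?_)
      · rw [ENNReal.tsum_geometric]
        exact ENNReal.inv_ne_top.mpr (tsub_pos_of_lt hr).ne'
      · exact pow_le_pow_right_of_le_one' hr.le (by omega))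
  refine h.mono fun b hb => ⟨sub_mem_BB a b (hb.mono fun j hj => not_lt.mp hj),
    sub_mem_BB b a (hb.mono fun j hj => ?_)⟩
  simp only [Set.mem_ofPred_eq, not_lt] at hj
  simpa only [eq_comm] using hj

theorem null_of_indep (X : Set ℝ)
    (hX : ∀ x ∈ X, ∀ y ∈ X, x ≠ y → x - y ∉ BB ∨ y - x ∉ BB) (t : ℝ) :
    PP.map phi ((fun x => x + t) '' X) = 0 := by
  rw [(phi_meas.measurableEmbedding phi_inj).map_apply]
  rcases Set.eq_empty_or_nonempty (phi ⁻¹' ((fun x => x + t) '' X)) with h | ⟨a, x, hx, ha⟩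
  · rw [h, measure_empty]
  · have h1 := ae_BB a
    rw [ae_iff] at h1
    refine measure_mono_null (fun b hb => ?_) (measure_union_null (PP_single a) h1)
    obtain ⟨y, hy, hb⟩ := hb
    by_cases hab : b = a
    · exact Or.inl hab
    · right
      have hxy : x ≠ y := by
        rintro rfl
        exact hab (phi_inj (hb.symm.trans ha))
      simp only at ha hb
      have e1 : phi b - phi a = y - x := by rw [← ha, ← hb]; ring
      have e2 : phi a - phi b = x - y := by rw [← ha, ← hb]; ring
      simp only [Set.mem_ofPred_eq, e1, e2]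
      have := hX x hx y hy hxy
      tauto

end Pool.Agent.H.MP_49e1f6_an
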