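import Pool.Agent.H.MP_49e1f6_an.B

namespace Pool.Agent.H.MP_49e1f6_an

open Finset Filter MeasureTheory ProbabilityTheory
open scoped ENNReal

theorem exists_p : ∃ p : (ℕ → Bool) → ℝ, Measurable p ∧
    ∀ t : ℝ, {w | p w - t ∈ BB}.Countable := by
  classical
  obtain ⟨e, he⟩ := exists_surjective_nat (Σ n : ℕ, ((Fin n → Bool) → Fin 100))
  choose v hv1 hv2 using fun j : ℕ => good_vec (j + 11) (by omega)
  let G : (Σ n : ℕ, ((Fin n → Bool) → Fin 100)) → (ℕ → Bool) → Fin 100 :=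
    fun c w => c.2 fun i => w i
  have hG : ∀ c, Measurable (G c) := fun c =>
    (measurable_of_countable c.2).comp (measurable_pi_lambda _ fun i => measurable_pi_apply _)
  let U : (ℕ → Bool) → ℕ → ℤ := fun w j => v j (G (e (Nat.unpair j).1) w)
  refine ⟨fun w => ∑' j, (U w j : ℝ) / 3 ^ MM (j + 1), Measurable.tsum fun j => ?_, fun t => ?_⟩
  · exact (measurable_of_countable fun c : Fin 100 => (v j c : ℝ) / 3 ^ MM (j + 1)).comp (hG _)
  have hsub : {w | ∑' j, (U w j : ℝ) / 3 ^ MM (j + 1) - t ∈ BB} ⊆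
      ⋃ N : ℕ, {w | ∀ j ≥ N, Good j (∑' j, (U w j : ℝ) / 3 ^ MM (j + 1) - t)} := by
    intro w hw
    exact Set.mem_iUnion.mpr (eventually_atTop.mp hw)
  refine (Set.countable_iUnion fun N => Set.Finite.countable ?_).mono hsub
  by_contra hinf
  let w := Set.Infinite.natEmbedding _ hinf
  have h1 : ∀ᶠ n in atTop, ∀ q : Fin 100 × Fin 100, q.1 ≠ q.2 →
      (fun i : Fin n => (w q.1).1 i) ≠ fun i : Fin n => (w q.2).1 i := by
    refine eventually_all.mpr fun q => ?_
    by_cases hq : q.1 = q.2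
    · exact Eventually.of_forall fun n h => absurd hq h
    have h2 : (w q.1).1 ≠ (w q.2).1 := fun h =>
      hq (Fin.ext (w.injective (Subtype.ext h)))
    obtain ⟨m, hm⟩ := Function.ne_iff.mp h2
    filter_upwards [eventually_gt_atTop m] with n hn _ h
    exact hm (congrFun h ⟨m, hn⟩)
  obtain ⟨n, hn⟩ := h1.exists
  have hinj : Function.Injective fun (k : Fin 100) (i : Fin n) => (w k).1 i := by
    intro k k' h
    by_contra hk
    exact hn (k, k') hk h
  obtain ⟨g, hg⟩ := hinj.hasLeftInverse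
  obtain ⟨a, ha⟩ := he ⟨n, g⟩
  set j := Nat.pair a N with hj
  have hjN : j ≥ N := Nat.right_le_pair a N
  have hU : ∀ k : Fin 100, U (w k).1 j = v j k := by
    intro k
    have e0 : e (Nat.unpair j).1 = ⟨n, g⟩ := by rw [hj, Nat.unpair_pair]; exact ha
    show v j (G (e (Nat.unpair j).1) (w k).1) = v j k
    rw [e0]
    exact congrArg _ (hg k)
  refine hv2 j ⌊(3 : ℝ) ^ MM (j + 1) * t⌋ fun k => ?_
  obtain ⟨g, hg, m, hm⟩ := (w k).2 j hjN
  have hs := split MM (fun i => by rw [MM_succ]; omega) (U (w k).1) (fun i => by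
    rw [MM_succ, Nat.add_sub_cancel_left]; exact hv1 i _) (j + 1)
  have e1 : (∑ i ∈ range (j + 1), U (w k).1 i * 3 ^ (MM (j + 1) - MM (i + 1)) : ℤ)
      = (∑ i ∈ range j, U (w k).1 i * 3 ^ (MM j - MM (i + 1))) * 3 ^ (20 * (j + 11)) + v j k := by
    rw [sum_range_succ, Nat.sub_self, pow_zero, mul_one, hU, sum_mul]
    congr 1
    refine sum_congr rfl fun i hi => ?_
    have h3 : MM (i + 1) ≤ MM j :=
      (strictMono_nat_of_lt_succ fun i => by rw [MM_succ]; omega : StrictMono MM).monotone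
        (mem_range.mp hi)
    have e2 : MM (j + 1) - MM (i + 1) = MM j - MM (i + 1) + 20 * (j + 11) := by
      rw [MM_succ j]; omega
    rw [e2, pow_add, mul_assoc]
  rw [e1] at hs
  set m' := ∑ i ∈ range j, U (w k).1 i * 3 ^ (MM j - MM (i + 1))
  refine ⟨g, hg, m - m', v j k - ⌊(3 : ℝ) ^ MM (j + 1) * t⌋ - g - (m - m') * 3 ^ (20 * (j + 11)),
    ?_, by ring⟩
  have f1 := Int.floor_le ((3 : ℝ) ^ MM (j + 1) * t)
  have f2 := Int.lt_floor_add_one ((3 : ℝ) ^ MM (j + 1) * t)
  have : |((v j k - ⌊(3 : ℝ) ^ MM (j + 1) * t⌋ - g - (m - m') * 3 ^ (20 * (j + 11)) : ℤ) : ℝ)|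
      ≤ 5 := by
    push_cast at hs ⊢
    rw [mul_sub] at hm
    rw [abs_le] at hs hm ⊢
    constructor <;> linarith [hs.1, hs.2, hm.1, hm.2]
  exact_mod_cast this

theorem not_cover (F : Set ℝ) (hF : MeasurableSet F) (h0 : volume F ≠ 0) {ι : Type}
    (hι : Cardinal.mk ι < Cardinal.continuum) (t : ι → ℝ) : ∃ y ∈ F, ∀ i, y - t i ∉ BB := by
  obtain ⟨p, hp, hc⟩ := exists_p
  have h1 : ∃ s : ℝ, PP {w | s + p w ∈ F} ≠ 0 := by
    by_contra! h
    have hm : MeasurableSet {x : ℝ × (ℕ → Bool) | x.1 + p x.2 ∉ F} :=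
      (measurable_fst.add (hp.comp measurable_snd)) hF.compl
    have h2 := (Measure.ae_ae_comm (μ := (volume : Measure ℝ)) (ν := PP)
      (p := fun s w => s + p w ∉ F) hm).mp (Eventually.of_forall fun s => by
        rw [ae_iff]; simpa using h s)
    obtain ⟨w, hw⟩ := h2.exists
    rw [ae_iff] at hw
    apply h0
    rw [← measure_preimage_add_right volume (p w) F]
    simp only [not_not] at hw
    exact hw
  obtain ⟨s, hs⟩ := h1
  set A := {w | s + p w ∈ F}
  have hA : MeasurableSet A := (measurable_const.add hp) hF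
  have hAc : ¬ Countable A := by
    intro h
    apply hs
    rw [← Set.biUnion_of_singleton A]
    exact (measure_biUnion_null_iff (Set.countable_coe_iff.mp h)).mpr fun a _ => PP_single a
  have := hA.standardBorel
  have hcard : Cardinal.mk A = Cardinal.continuum := by
    rw [Cardinal.mk_congr (PolishSpace.measurableEquivNatBoolOfNotCountable hAc).toEquiv]
    simp
  have h3 : Cardinal.mk (⋃ i, {w | p w - (t i - s) ∈ BB} : Set (ℕ → Bool))
      < Cardinal.continuum := by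
    refine (Cardinal.mk_iUnion_le _).trans_lt
      (Cardinal.mul_lt_of_lt Cardinal.aleph0_le_continuum hι
        (lt_of_le_of_lt (ciSup_le' fun i => ?_) Cardinal.aleph0_lt_continuum))
    exact Cardinal.le_aleph0_iff_set_countable.mpr (hc _)
  by_contra! h
  rw [← hcard] at h3
  refine absurd (Cardinal.mk_le_mk_of_subset fun w hw => ?_) (not_le.mpr h3)
  obtain ⟨i, hi⟩ := h _ hw
  refine Set.mem_iUnion.mpr ⟨i, ?_⟩
  have e : p w - (t i - s) = s + p w - t i := by ring
  simpa only [Set.mem_ofPred_eq, e] using hi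

theorem exists_rec {T : Type} [LinearOrder T] [WellFoundedLT T] (Q : T → ℝ → Prop)
    (R : ℝ → ℝ → Prop) (h : ∀ (a : T) (g : Set.Iio a → ℝ), ∃ y, Q a y ∧ ∀ b, R (g b) y) :
    ∃ x : T → ℝ, ∀ a, Q a (x a) ∧ ∀ b < a, R (x b) (x a) := by
  choose F hF using h
  let x : T → ℝ := (wellFounded_lt (α := T)).fix fun a r => F a fun b => r b.1 b.2
  have hx : ∀ a, x a = F a fun b => x b.1 := fun a => WellFounded.fix_eq _ _ a
  refine ⟨x, fun a => ⟨?_, fun b hb => ?_⟩⟩
  · rw [hx]; exact (hF a _).1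
  · rw [hx a]; exact (hF a fun b => x b.1).2 ⟨b, hb⟩

theorem main : ∃ X : Set ℝ, volume X ≠ 0 ∧ ∀ t : ℝ, PP.map phi ((fun x => x + t) '' X) = 0 := by
  let I := {F : Set ℝ // MeasurableSet F ∧ volume F ≠ 0}
  have hI : Cardinal.mk I ≤ Cardinal.continuum := by
    have h1 := MeasurableSpace.cardinal_measurableSet_le_continuum
      (s := (⋃ a : ℚ, {Set.Iio (a : ℝ)} : Set (Set ℝ)))
      ((Cardinal.le_aleph0_iff_set_countable.mpr
        (Set.countable_iUnion fun _ => Set.countable_singleton _)).trans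
          Cardinal.aleph0_le_continuum)
    rw [← Real.borel_eq_generateFrom_Iio_rat] at h1
    refine le_trans (Cardinal.mk_subtype_mono fun F hF => ?_) h1
    exact hF.1
  obtain ⟨_, _, ho⟩ := Cardinal.exists_ord_eq_type_lt I
  obtain ⟨x, hx⟩ := exists_rec (T := I) (fun a y => y ∈ a.1) (fun z y => y - z ∉ BB)
    fun a g => not_cover a.1 a.2.1 a.2.2 ((Cardinal.mk_Iio_lt a ho).trans_le hI) g
  refine ⟨Set.range x, fun h0 => ?_, null_of_indep _ ?_⟩
  · obtain ⟨Y, hY, hYm, hY0⟩ := exists_measurable_superset_of_null h0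
    have hc : volume Yᶜ ≠ 0 := by
      intro h
      have := measure_union_null hY0 h
      simp at this
    exact (hx ⟨Yᶜ, hYm.compl, hc⟩).1 (hY ⟨_, rfl⟩)
  · rintro _ ⟨a, rfl⟩ _ ⟨b, rfl⟩ hab
    rcases lt_trichotomy a b with h | h | h
    · exact Or.inr ((hx b).2 a h)
    · exact absurd (congrArg x h) hab
    · exact Or.inl ((hx a).2 b h)

end Pool.Agent.H.MP_49e1f6_an
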